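import Mathlib

set_option autoImplicit false

/-!
# Curves which violate the bound have almost constant multiplicities on the points of weight one
-/

namespace Pool.Agent.helper25.Exp

open Finset

/-- no two disjoint unequal pairs: all values agree, except at most one -/
lemma almost_const {ι : Type*} [DecidableEq ι] (A : Finset ι) (hA : 5 ≤ A.card) (μ : ι → ℕ)
    (h : ∀ i ∈ A, ∀ j ∈ A, ∀ k ∈ A, ∀ l ∈ A, i ≠ k → i ≠ l → j ≠ k → j ≠ l →
      μ i ≠ μ j → μ k ≠ μ l → False) :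
    ∃ i0 ∈ A, ∃ x : ℕ, ∀ i ∈ A, i ≠ i0 → μ i = x := by
  by_cases hall : ∀ i ∈ A, ∀ j ∈ A, μ i = μ j
  · obtain ⟨a, ha⟩ : A.Nonempty := Finset.card_pos.1 (by omega)
    exact ⟨a, ha, μ a, fun i hi _ => hall i hi a ha⟩
  push Not at hall
  obtain ⟨i, hi, j, hj, hij⟩ := hall
  have hne : i ≠ j := fun h => hij (by rw [h])
  set R := (A.erase i).erase j with hR
  have hcard : 3 ≤ R.card := by
    rw [hR, Finset.card_erase_of_mem (Finset.mem_erase.2 ⟨hne.symm, hj⟩),
      Finset.card_erase_of_mem hi]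
    omega
  have hRA : ∀ a ∈ R, a ∈ A ∧ a ≠ i ∧ a ≠ j := by
    intro a ha
    rw [hR, Finset.mem_erase, Finset.mem_erase] at ha
    exact ⟨ha.2.2, ha.2.1, ha.1⟩
  have hconst : ∀ a ∈ R, ∀ b ∈ R, μ a = μ b := by
    intro a ha b hb
    by_contra hab
    obtain ⟨h1, h2, h3⟩ := hRA a ha
    obtain ⟨h4, h5, h6⟩ := hRA b hb
    exact h i hi j hj a h1 b h4 h2.symm h5.symm h3.symm h6.symm hij hab
  obtain ⟨a, ha, b, hb, hab⟩ := Finset.one_lt_card.1 (show 1 < R.card by omega)
  obtain ⟨h1, h2, h3⟩ := hRA a ha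
  obtain ⟨h4, h5, h6⟩ := hRA b hb
  by_cases hia : μ i = μ a
  · refine ⟨j, hj, μ a, fun c hc hcj => ?_⟩
    by_cases hci : c = i
    · rw [hci, hia]
    · exact hconst c (by rw [hR, Finset.mem_erase, Finset.mem_erase]; exact ⟨hcj, hci, hc⟩) a ha
  · by_cases hja : μ j = μ b
    · refine ⟨i, hi, μ a, fun c hc hci => ?_⟩
      by_cases hcj : c = j
      · rw [hcj, hja]; exact hconst b hb a ha
      · exact hconst c (by rw [hR, Finset.mem_erase, Finset.mem_erase]; exact ⟨hcj, hci, hc⟩) a ha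
    · exact (h i hi a h1 j hj b h4 hne h5.symm h3 hab hia hja).elim

lemma two_pairs {ι : Type*} [Fintype ι] [DecidableEq ι] (f : ι → ℝ) {i j k l : ι}
    (hij : i ≠ j) (hkl : k ≠ l) (h1 : i ≠ k) (h2 : i ≠ l) (h3 : j ≠ k) (h4 : j ≠ l) :
    (f i - f j) ^ 2 / 2 + (f k - f l) ^ 2 / 2 ≤ ∑ a, f a ^ 2 := by
  have hs : ∑ a ∈ ({i, j, k, l} : Finset ι), f a ^ 2 ≤ ∑ a, f a ^ 2 :=
    Finset.sum_le_sum_of_subset_of_nonneg (Finset.subset_univ _) fun a _ _ => sq_nonneg _
  rw [Finset.sum_insert (by simp [hij, h1, h2]), Finset.sum_insert (by simp [h3, h4]),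
    Finset.sum_insert (by simp [hkl]), Finset.sum_singleton] at hs
  nlinarith [sq_nonneg (f i + f j), sq_nonneg (f k + f l)]

/-- Module C. Curves which violate the bound have almost constant multiplicities on the points of
weight one, and small degree. -/
theorem num_bound {h : ℕ} (A : Finset (Fin h)) (w : Fin h → ℕ) (hw1 : ∀ i ∈ A, w i = 1)
    (hw4 : ∀ i, w i ≤ 4) (N r D : ℕ) (hN : 0 < N) (hr : ∑ i, w i ^ 2 = r)
    (hA : 5 ≤ A.card) (hrA : r ≤ 4 * (A.card - 1)) (hrN : 192 * N ≤ r) (hD : 0 < D)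
    (z : ℝ) (hz : 0 < z) (μ : Fin h → ℕ)
    (xu : ∀ j, 0 < μ j → N * ∑ i, μ i ^ 2 ≤ D ^ 2 + N * μ j)
    (sw : ∀ i j, μ i ≠ μ j → (N : ℤ) * ∑ k, (μ k : ℤ) ^ 2 ≤
      (D : ℤ) ^ 2 + N * ((μ i : ℤ) - μ j) ^ 2)
    (viol : (z + 1) * r * (D : ℝ) ^ 2 < N * z * (∑ i, (w i : ℝ) * μ i) ^ 2) :
    ∃ i0 ∈ A, ∃ x : ℕ, 0 < x ∧ (∀ i ∈ A, i ≠ i0 → μ i = x) ∧
      ((A.card : ℝ) - 1) * x < z + 1 ∧ ((A.card : ℝ) - 1) * (D : ℝ) ^ 2 < N * z * (z + 1) := by
  have hNR : (0 : ℝ) < N := by exact_mod_cast hN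
  have hDR : (0 : ℝ) < D := by exact_mod_cast hD
  have hr0 : 0 < r := by omega
  have hrR : (0 : ℝ) < r := by exact_mod_cast hr0
  have hrw : ∑ i, (w i : ℝ) ^ 2 = r := by exact_mod_cast hr
  have hKR : (5 : ℝ) ≤ A.card := by exact_mod_cast hA
  set S : ℝ := ∑ i, (w i : ℝ) * μ i with hS
  set M : ℝ := ∑ i, (μ i : ℝ) ^ 2 with hM
  -- `r D^2 < N S^2`
  have v1 : r * (D : ℝ) ^ 2 < N * S ^ 2 := by
    have h1 : (z + 1) * (r * (D : ℝ) ^ 2) < (z + 1) * (N * S ^ 2) := by
      have : (0 : ℝ) ≤ N * S ^ 2 := by positivity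
      nlinarith
    exact lt_of_mul_lt_mul_left h1 (by linarith)
  have hCS : S ^ 2 ≤ r * M := by
    rw [← hrw]
    exact Finset.sum_mul_sq_le_sq_mul_sq _ _ _
  -- the exchange inequality
  have sw' : ∀ i j, μ i ≠ μ j → M - S ^ 2 / r < ((μ i : ℝ) - μ j) ^ 2 := by
    intro i j hij
    have h1 : (N : ℝ) * M ≤ (D : ℝ) ^ 2 + N * ((μ i : ℝ) - μ j) ^ 2 := by
      have := sw i j hij
      rw [hM]
      exact_mod_cast this
    have h2 : (D : ℝ) ^ 2 < N * (S ^ 2 / r) := by
      rw [mul_div_assoc', lt_div_iff₀ hrR]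
      linarith
    have h3 : (N : ℝ) * (M - S ^ 2 / r) < N * ((μ i : ℝ) - μ j) ^ 2 := by linarith
    exact lt_of_mul_lt_mul_left h3 hNR.le
  have hvar : ∑ l, ((μ l : ℝ) - S / r * w l) ^ 2 = M - S ^ 2 / r := by
    have h1 : ∀ l, ((μ l : ℝ) - S / r * w l) ^ 2 =
        (μ l : ℝ) ^ 2 - 2 * (S / r) * ((w l : ℝ) * μ l) + (S / r) ^ 2 * (w l : ℝ) ^ 2 := by
      intro l; ring
    rw [Finset.sum_congr rfl fun l _ => h1 l, Finset.sum_add_distrib, Finset.sum_sub_distrib,
      ← Finset.mul_sum, ← Finset.mul_sum, hrw, ← hS, ← hM]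
    field_simp
    ring
  obtain ⟨i0, hi0, x, hx⟩ := almost_const A hA μ (by
    intro i hi j hj k hk l hl h1 h2 h3 h4 hij hkl
    have hij' : i ≠ j := fun h => hij (by rw [h])
    have hkl' : k ≠ l := fun h => hkl (by rw [h])
    have hp := two_pairs (fun l => (μ l : ℝ) - S / r * w l) hij' hkl' h1 h2 h3 h4
    simp only [hw1 i hi, hw1 j hj, hw1 k hk, hw1 l hl, Nat.cast_one, mul_one] at hp
    rw [hvar] at hp
    have s1 := sw' i j hij
    have s2 := sw' k l hkl
    have e1 : (μ i : ℝ) - S / r - (μ j - S / r) = μ i - μ j := by ring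
    have e2 : (μ k : ℝ) - S / r - (μ l - S / r) = μ k - μ l := by ring
    rw [e1, e2] at hp
    linarith)
  have hcard : ((A.erase i0).card : ℝ) = A.card - 1 := by
    rw [Finset.card_erase_of_mem hi0, Nat.cast_sub (by omega), Nat.cast_one]
  rcases Nat.eq_zero_or_pos x with hx0 | hx0
  · exfalso
    subst hx0
    -- the support
    have hS' : S = ∑ i ∈ univ \ A.erase i0, (w i : ℝ) * μ i := by
      rw [hS, ← Finset.sum_sdiff (Finset.subset_univ (A.erase i0))]
      rw [add_eq_left]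
      refine Finset.sum_eq_zero fun i hi => ?_
      rw [hx i (Finset.mem_of_mem_erase hi) (Finset.ne_of_mem_erase hi)]
      simp
    have hw' : ∑ i ∈ univ \ A.erase i0, (w i : ℝ) ^ 2 = r - (A.card - 1) := by
      rw [← hrw, ← Finset.sum_sdiff (Finset.subset_univ (A.erase i0))]
      have : ∑ i ∈ A.erase i0, (w i : ℝ) ^ 2 = A.card - 1 := by
        rw [← hcard, Finset.card_eq_sum_ones, Nat.cast_sum]
        refine Finset.sum_congr rfl fun i hi => ?_
        rw [hw1 i (Finset.mem_of_mem_erase hi)]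
        simp
      rw [this]; ring
    have hCS' : S ^ 2 ≤ (r - (A.card - 1)) * M := by
      rw [hS', ← hw']
      refine (Finset.sum_mul_sq_le_sq_mul_sq _ _ _).trans ?_
      refine mul_le_mul_of_nonneg_left ?_ (Finset.sum_nonneg fun _ _ => sq_nonneg _)
      exact Finset.sum_le_sum_of_subset_of_nonneg (Finset.subset_univ _)
        fun _ _ _ => sq_nonneg _
    have key : ∀ l, 0 < μ l → ∑ i, μ i ^ 2 < 4 * μ l := by
      intro l hl
      have h1 : (N : ℝ) * M ≤ (D : ℝ) ^ 2 + N * μ l := by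
        have := xu l hl
        rw [hM]
        exact_mod_cast this
      have h2 : r * (D : ℝ) ^ 2 < N * ((r - (A.card - 1)) * M) :=
        v1.trans_le (mul_le_mul_of_nonneg_left hCS' hNR.le)
      have h3 : (N : ℝ) * (((A.card : ℝ) - 1) * M) < N * (r * μ l) := by
        nlinarith [mul_le_mul_of_nonneg_left h1 hrR.le]
      have h4 : ((A.card : ℝ) - 1) * M < r * μ l := lt_of_mul_lt_mul_left h3 hNR.le
      have h5 : (r : ℝ) ≤ 4 * (A.card - 1) := by
        have : (r : ℝ) ≤ ((4 * (A.card - 1) : ℕ) : ℝ) := by exact_mod_cast hrA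
        rw [Nat.cast_mul, Nat.cast_sub (by omega)] at this
        simpa using this
      have h6 : ((A.card : ℝ) - 1) * M < (A.card - 1) * (4 * μ l) := by
        refine h4.trans_le ?_
        have : (0 : ℝ) ≤ μ l := Nat.cast_nonneg _
        nlinarith
      have h7 : M < 4 * μ l := lt_of_mul_lt_mul_left h6 (by linarith)
      rw [hM] at h7
      exact_mod_cast h7
    -- some multiplicity is positive
    have hSpos : 0 < S ^ 2 := by
      have : (0 : ℝ) < r * (D : ℝ) ^ 2 := by positivity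
      by_contra hcon
      have h0 : S ^ 2 = 0 := le_antisymm (not_lt.1 hcon) (sq_nonneg _)
      rw [h0] at v1
      linarith
    set T := univ.filter fun l => 0 < μ l with hT
    have hTne : T.Nonempty := by
      rw [Finset.nonempty_iff_ne_empty]
      intro hcon
      have hall : ∀ l, μ l = 0 := by
        intro l
        by_contra hl
        have : l ∈ T := by rw [hT, Finset.mem_filter]; exact ⟨Finset.mem_univ _, by omega⟩
        rw [hcon] at this
        exact Finset.notMem_empty _ this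
      have : S = 0 := by
        rw [hS]
        refine Finset.sum_eq_zero fun l _ => ?_
        rw [hall l]; simp
      rw [this] at hSpos
      norm_num at hSpos
    obtain ⟨m, hm, hmin⟩ := Finset.exists_min_image T μ hTne
    have hm0 : 0 < μ m := (Finset.mem_filter.1 hm).2
    have hMN : ∑ i, μ i ^ 2 = ∑ i ∈ T, μ i ^ 2 := by
      rw [hT, Finset.sum_filter]
      refine Finset.sum_congr rfl fun l _ => ?_
      split_ifs with hl
      · rfl
      · have : μ l = 0 := by omega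
        rw [this]; rfl
    have hSN : S = ((∑ i ∈ T, w i * μ i : ℕ) : ℝ) := by
      rw [hS, hT, Finset.sum_filter, Nat.cast_sum]
      refine Finset.sum_congr rfl fun l _ => ?_
      split_ifs with hl
      · push_cast; ring
      · have : μ l = 0 := by omega
        rw [this]; simp
    have hc1 : T.card * μ m ^ 2 ≤ ∑ i ∈ T, μ i ^ 2 := by
      rw [← smul_eq_mul]
      exact Finset.card_nsmul_le_sum _ _ _ fun i hi => Nat.pow_le_pow_left (hmin i hi) 2
    have hk := key m hm0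
    rw [hMN] at hk
    have hTc : 0 < T.card := Finset.card_pos.2 hTne
    have hc2 : T.card * μ m < 4 := by
      by_contra hcon
      push Not at hcon
      have : 4 * μ m ≤ T.card * μ m ^ 2 := by nlinarith
      omega
    have hc3 : T.card * ∑ i ∈ T, μ i ^ 2 ≤ 11 := by
      have h1 : T.card * ∑ i ∈ T, μ i ^ 2 ≤ T.card * (4 * μ m - 1) :=
        Nat.mul_le_mul_left _ (by omega)
      have h2 : T.card * (4 * μ m - 1) = 4 * (T.card * μ m) - T.card := by
        rw [Nat.mul_sub, mul_one]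
        congr 1
        ring
      omega
    have hc4 : (∑ i ∈ T, w i * μ i) ^ 2 ≤ 176 := by
      have h1 : ∑ i ∈ T, w i * μ i ≤ 4 * ∑ i ∈ T, μ i := by
        rw [Finset.mul_sum]
        exact Finset.sum_le_sum fun i _ => Nat.mul_le_mul_right _ (hw4 i)
      have h2 : (∑ i ∈ T, μ i) ^ 2 ≤ T.card * ∑ i ∈ T, μ i ^ 2 := by
        have := sq_sum_le_card_mul_sum_sq (s := T) (f := fun i => (μ i : ℤ))
        exact_mod_cast this
      calc (∑ i ∈ T, w i * μ i) ^ 2 ≤ (4 * ∑ i ∈ T, μ i) ^ 2 := Nat.pow_le_pow_left h1 2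
        _ = 16 * (∑ i ∈ T, μ i) ^ 2 := by ring
        _ ≤ 16 * 11 := Nat.mul_le_mul_left _ (h2.trans hc3)
        _ = 176 := by norm_num
    have hc5 : S ^ 2 ≤ 176 := by
      rw [hSN]
      exact_mod_cast hc4
    have hrN' : (192 : ℝ) * N ≤ r := by exact_mod_cast hrN
    have hD1 : (1 : ℝ) ≤ D := by exact_mod_cast hD
    have : (r : ℝ) ≤ r * (D : ℝ) ^ 2 := by
      have : (1 : ℝ) ≤ (D : ℝ) ^ 2 := one_le_pow₀ hD1
      nlinarith
    nlinarith
  · -- `x > 0`
    obtain ⟨j, hj, hji⟩ : ∃ j ∈ A, j ≠ i0 := by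
      obtain ⟨j, hj⟩ : (A.erase i0).Nonempty := Finset.card_pos.1 (by
        rw [Finset.card_erase_of_mem hi0]; omega)
      exact ⟨j, Finset.mem_of_mem_erase hj, Finset.ne_of_mem_erase hj⟩
    have hxj := hx j hj hji
    have hxR : (0 : ℝ) < x := by exact_mod_cast hx0
    have h1 : (N : ℝ) * M ≤ (D : ℝ) ^ 2 + N * x := by
      have := xu j (by rw [hxj]; exact hx0)
      rw [hxj] at this
      rw [hM]
      exact_mod_cast this
    have h2 : (D : ℝ) ^ 2 < z * N * x := by
      have h3 : (z + 1) * r * (D : ℝ) ^ 2 < z * r * ((D : ℝ) ^ 2 + N * x) := by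
        refine viol.trans_le ?_
        calc N * z * S ^ 2 ≤ N * z * (r * M) :=
              mul_le_mul_of_nonneg_left hCS (by positivity)
          _ = z * r * (N * M) := by ring
          _ ≤ z * r * ((D : ℝ) ^ 2 + N * x) := mul_le_mul_of_nonneg_left h1 (by positivity)
      have h4 : r * (D : ℝ) ^ 2 < r * (z * N * x) := by nlinarith
      exact lt_of_mul_lt_mul_left h4 hrR.le
    have h3 : ((A.card : ℝ) - 1) * x ^ 2 ≤ M := by
      rw [← hcard, hM]
      have h4 : ∑ i ∈ A.erase i0, (μ i : ℝ) ^ 2 ≤ ∑ i, (μ i : ℝ) ^ 2 :=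
        Finset.sum_le_sum_of_subset_of_nonneg (Finset.subset_univ _) fun _ _ _ => sq_nonneg _
      refine le_trans (le_of_eq ?_) h4
      rw [Finset.sum_congr rfl (g := fun _ => (x : ℝ) ^ 2) fun i hi => by
        rw [hx i (Finset.mem_of_mem_erase hi) (Finset.ne_of_mem_erase hi)],
        Finset.sum_const, nsmul_eq_mul]
    have h4 : ((A.card : ℝ) - 1) * x < z + 1 := by
      have h5 : (N * x : ℝ) * (((A.card : ℝ) - 1) * x) < (N * x) * (z + 1) := by
        have := mul_le_mul_of_nonneg_left h3 hNR.le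
        nlinarith
      exact lt_of_mul_lt_mul_left h5 (by positivity)
    refine ⟨i0, hi0, x, hx0, hx, h4, ?_⟩
    have h5 : (0 : ℝ) < A.card - 1 := by linarith
    calc ((A.card : ℝ) - 1) * (D : ℝ) ^ 2 < (A.card - 1) * (z * N * x) :=
          mul_lt_mul_of_pos_left h2 h5
      _ = N * z * ((A.card - 1) * x) := by ring
      _ < N * z * (z + 1) := mul_lt_mul_of_pos_left h4 (by positivity)

end Pool.Agent.helper25.Exp
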